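import Mathlib

/-!
# MP_61eff6_co: monochromatic triangle tilings under intermediate minimum degree

The claims (C.1) and (C.2) of Q1 are false, the first one for `n = 27`, minimum degree `24`,
the second one for `n = 30`, minimum degree `26`, and both fail for all large `n` in the whole open
interval of minimum degrees between `6 n / 7` and `10 n / 11`.

The graph: the complement of three disjoint cliques of order `n - δ`. The colouring is a blow-up of
the colouring of `K_5` with a red and a blue pentagon, in which two consecutive vertices of the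
red pentagon are replaced by a blue clique and a red clique and the other three by
independent sets of order `n - δ`. A red triangle has two vertices in the red clique, a blue
triangle has two vertices in the blue clique.
-/

set_option autoImplicit false

namespace Pool.Agent.Results.MP_61eff6_co.PentagonCliques

open Finset

/-- `G`, with its edges coloured by `c`, has `m` pairwise vertex-disjoint triangles
`{f (i, 0), f (i, 1), f (i, 2)}` all of whose edges have one and the same colour `b`. -/
def HasMonoTiling {V : Type*} (G : SimpleGraph V) (c : Sym2 V → Bool) (m : ℕ) : Prop :=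
  ∃ (b : Bool) (f : Fin m × Fin 3 → V), Function.Injective f ∧
    ∀ (i : Fin m) (j k : Fin 3), j ≠ k →
      G.Adj (f (i, j)) (f (i, k)) ∧ c s(f (i, j), f (i, k)) = b

/-- position of the vertex `i` on the red pentagon -/
def pos (t r : ℕ) (i : ℕ) : Fin 5 :=
  if i < t then 0 else if i < 2 * t then 3 else if i < 3 * t then 4 else
    if i < 3 * t + r then 2 else 1

def isRed (x y : Fin 5) : Bool :=
  decide (y = x + 1) || decide (x = y + 1) || (decide (x = 2) && decide (y = 2))

theorem isRed_comm : ∀ x y : Fin 5, isRed x y = isRed y x := by decide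

def gr (n t r : ℕ) : SimpleGraph (Fin n) where
  Adj v w := v ≠ w ∧ (pos t r v = pos t r w → pos t r v = 1 ∨ pos t r v = 2)
  symm := ⟨fun v w h => ⟨h.1.symm, fun e => by rw [e]; exact h.2 e.symm⟩⟩
  loopless := ⟨fun v h => h.1 rfl⟩

instance (n t r : ℕ) : DecidableRel (gr n t r).Adj := fun v w =>
  inferInstanceAs (Decidable (v ≠ w ∧ (pos t r v = pos t r w → pos t r v = 1 ∨ pos t r v = 2)))

def col (n t r : ℕ) : Sym2 (Fin n) → Bool :=
  Sym2.lift ⟨fun v w => isRed (pos t r v) (pos t r w), fun _ _ => isRed_comm _ _⟩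

theorem triRed : ∀ x y z : Fin 5, isRed x y = true → isRed x z = true → isRed y z = true →
    2 ≤ (if x = 2 then 1 else 0) + (if y = 2 then 1 else 0) + (if z = 2 then 1 else 0) := by
  decide

theorem triBlue : ∀ x y z : Fin 5, isRed x y = false → isRed x z = false → isRed y z = false →
    (x = y → x = 1 ∨ x = 2) → (x = z → x = 1 ∨ x = 2) → (y = z → y = 1 ∨ y = 2) →
    2 ≤ (if x = 1 then 1 else 0) + (if y = 1 then 1 else 0) + (if z = 1 then 1 else 0) := by
  decide

theorem count {n m : ℕ} (t r : ℕ) (p : Fin 5) (f : Fin m × Fin 3 → Fin n)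
    (hf : Function.Injective f)
    (h : ∀ i, 2 ≤ (if pos t r (f (i, 0)) = p then 1 else 0) +
      (if pos t r (f (i, 1)) = p then 1 else 0) + (if pos t r (f (i, 2)) = p then 1 else 0)) :
    2 * m ≤ (univ.filter (fun v : Fin n => pos t r v = p)).card := by
  have h1 : 2 * m ≤ ∑ i : Fin m, ∑ j : Fin 3, (if pos t r (f (i, j)) = p then 1 else 0) := by
    have : ∀ i : Fin m, 2 ≤ ∑ j : Fin 3, (if pos t r (f (i, j)) = p then 1 else 0) := by
      intro i
      rw [Fin.sum_univ_three]
      exact h i
    calc 2 * m = ∑ _i : Fin m, 2 := by simp [mul_comm]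
      _ ≤ _ := Finset.sum_le_sum fun i _ => this i
  have h2 : ∑ i : Fin m, ∑ j : Fin 3, (if pos t r (f (i, j)) = p then 1 else 0) =
      (univ.filter (fun x : Fin m × Fin 3 => pos t r (f x) = p)).card := by
    rw [Finset.card_filter, ← Finset.univ_product_univ, Finset.sum_product]
  rw [h2] at h1
  refine h1.trans (Finset.card_le_card_of_injOn f ?_ hf.injOn)
  intro x hx
  simpa using hx

theorem card_range {n : ℕ} (a b : ℕ) (hb : b ≤ n) :
    (univ.filter (fun v : Fin n => a ≤ v.1 ∧ v.1 < b)).card = b - a := by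
  rw [← Nat.card_Ico, ← Finset.card_map Fin.valEmbedding]
  congr 1
  ext x
  simp only [mem_map, mem_filter, mem_univ, true_and, Fin.valEmbedding_apply, mem_Ico]
  constructor
  · rintro ⟨v, ⟨h1, h2⟩, rfl⟩
    exact ⟨h1, h2⟩
  · rintro ⟨h1, h2⟩
    exact ⟨⟨x, by omega⟩, ⟨h1, h2⟩, rfl⟩

theorem pos_zero {t r i : ℕ} : pos t r i = 0 ↔ 0 ≤ i ∧ i < t := by
  unfold pos
  split_ifs <;> simp <;> omega

theorem pos_three {t r i : ℕ} : pos t r i = 3 ↔ t ≤ i ∧ i < 2 * t := by
  unfold pos
  split_ifs <;> simp <;> omega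

theorem pos_four {t r i : ℕ} : pos t r i = 4 ↔ 2 * t ≤ i ∧ i < 3 * t := by
  unfold pos
  split_ifs <;> simp <;> omega

theorem pos_two {t r i : ℕ} : pos t r i = 2 ↔ 3 * t ≤ i ∧ i < 3 * t + r := by
  unfold pos
  split_ifs <;> simp <;> omega

theorem pos_one {t r i : ℕ} : pos t r i = 1 ↔ 3 * t + r ≤ i := by
  unfold pos
  split_ifs <;> simp <;> omega

/-- The colouring has no large monochromatic tiling. -/
theorem no_tiling (n t r m : ℕ) (hn : 3 * t + r ≤ n)
    (h : HasMonoTiling (gr n t r) (col n t r) m) : 2 * m ≤ r ∨ 2 * m ≤ n - (3 * t + r) := by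
  obtain ⟨b, f, hf, hm⟩ := h
  have key : ∀ i (j k : Fin 3), j ≠ k →
      (pos t r (f (i, j)) = pos t r (f (i, k)) →
        pos t r (f (i, j)) = 1 ∨ pos t r (f (i, j)) = 2) ∧
      isRed (pos t r (f (i, j))) (pos t r (f (i, k))) = b := by
    intro i j k hjk
    obtain ⟨h1, h2⟩ := hm i j k hjk
    exact ⟨h1.2, h2⟩
  cases b with
  | true =>
    left
    have := count t r 2 f hf (fun i => triRed _ _ _ (key i 0 1 (by decide)).2
      (key i 0 2 (by decide)).2 (key i 1 2 (by decide)).2)
    have hc : (univ.filter (fun v : Fin n => pos t r v = 2)).card = r := by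
      have := card_range (n := n) (3 * t) (3 * t + r) hn
      simp only [pos_two]
      rw [this]
      omega
    omega
  | false =>
    right
    have := count t r 1 f hf (fun i => triBlue _ _ _ (key i 0 1 (by decide)).2
      (key i 0 2 (by decide)).2 (key i 1 2 (by decide)).2 (key i 0 1 (by decide)).1
      (key i 0 2 (by decide)).1 (key i 1 2 (by decide)).1)
    have hc : (univ.filter (fun v : Fin n => pos t r v = 1)).card = n - (3 * t + r) := by
      have := card_range (n := n) (3 * t + r) n le_rfl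
      rw [← this]
      congr 1
      ext v
      simp [pos_one]
    omega

theorem fiber_le (n t r : ℕ) (ht : 1 ≤ t) (hn : 3 * t + r ≤ n) (v : Fin n) :
    (univ.filter (fun w : Fin n => ¬ (gr n t r).Adj v w)).card ≤ t := by
  have hsub : (univ.filter (fun w : Fin n => ¬ (gr n t r).Adj v w)) ⊆
      if pos t r v = 1 ∨ pos t r v = 2 then {v}
      else univ.filter (fun w : Fin n => pos t r w = pos t r v) := by
    intro w hw
    have hw' : ¬ (gr n t r).Adj v w := (Finset.mem_filter.1 hw).2
    split_ifs with h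
    · simp only [mem_singleton]
      by_contra hne
      exact hw' ⟨fun e => hne e.symm, fun _ => h⟩
    · simp only [mem_filter, mem_univ, true_and]
      by_contra hne
      apply hw'
      exact ⟨fun e => hne (by rw [e]), fun e => absurd e.symm hne⟩
  refine (Finset.card_le_card hsub).trans ?_
  split_ifs with h
  · simpa using ht
  · have h5 : ∀ x : Fin 5, x = 0 ∨ x = 1 ∨ x = 2 ∨ x = 3 ∨ x = 4 := by decide
    rcases h5 (pos t r v) with e | e | e | e | e
    · rw [e]
      have := card_range (n := n) 0 t (by omega)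
      simp only [pos_zero]
      rw [this]
      omega
    · exact absurd (Or.inl e) h
    · exact absurd (Or.inr e) h
    · rw [e]
      have := card_range (n := n) t (2 * t) (by omega)
      simp only [pos_three]
      rw [this]
      omega
    · rw [e]
      have := card_range (n := n) (2 * t) (3 * t) (by omega)
      simp only [pos_four]
      rw [this]
      omega

theorem fiber_zero (n t r : ℕ) (ht : 1 ≤ t) (hn : 3 * t + r ≤ n) :
    (univ.filter (fun w : Fin n => ¬ (gr n t r).Adj ⟨0, by omega⟩ w)).card = t := by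
  have h0 : pos t r 0 = 0 := pos_zero.2 ⟨le_rfl, ht⟩
  have := card_range (n := n) 0 t (by omega)
  rw [Nat.sub_zero] at this
  conv_rhs => rw [← this]
  congr 1
  ext w
  simp only [mem_filter, mem_univ, true_and, gr, h0]
  rw [← pos_zero (r := r)]
  constructor
  · intro h
    by_contra hne
    apply h
    refine ⟨fun e => hne ?_, fun e => absurd e.symm hne⟩
    rw [← e]
    exact h0
  · intro h h2
    have := h2.2 h.symm
    revert this
    decide

theorem degree_eq (n t r : ℕ) (v : Fin n) :
    (gr n t r).degree v + (univ.filter (fun w : Fin n => ¬ (gr n t r).Adj v w)).card = n := by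
  have h := Finset.card_filter_add_card_filter_not (s := (univ : Finset (Fin n)))
    (fun w => (gr n t r).Adj v w)
  rw [Finset.card_univ, Fintype.card_fin] at h
  rw [← SimpleGraph.card_neighborFinset_eq_degree, SimpleGraph.neighborFinset_eq_filter]
  exact h

theorem minDegree_eq (n t r : ℕ) (ht : 1 ≤ t) (hn : 3 * t + r ≤ n) :
    (gr n t r).minDegree = n - t := by
  have : Nonempty (Fin n) := ⟨⟨0, by omega⟩⟩
  apply le_antisymm
  · have h1 := (gr n t r).minDegree_le_degree ⟨0, by omega⟩
    have h2 := degree_eq n t r ⟨0, by omega⟩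
    rw [fiber_zero n t r ht hn] at h2
    omega
  · apply SimpleGraph.le_minDegree_of_forall_le_degree
    intro v
    have h2 := degree_eq n t r v
    have h3 := fiber_le n t r ht hn v
    omega

/-- For all `n > δ ≥ 2 n / 3` there is a 2-edge-coloured graph of order `n` and minimum degree `δ`
with no monochromatic copy of `m K_3` for any `m > (3 δ - 2 n + 1) / 4`. -/
theorem construction (n δ : ℕ) (h1 : δ < n) (h2 : 2 * n ≤ 3 * δ) :
    ∃ (G : SimpleGraph (Fin n)) (_ : DecidableRel G.Adj) (c : Sym2 (Fin n) → Bool),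
      G.minDegree = δ ∧ ∀ m : ℕ, HasMonoTiling G c m → 4 * m + 2 * n ≤ 3 * δ + 1 := by
  obtain ⟨t, ht⟩ : ∃ t, t = n - δ := ⟨_, rfl⟩
  obtain ⟨r, hr⟩ : ∃ r, r = (3 * δ - 2 * n + 1) / 2 := ⟨_, rfl⟩
  have hn : 3 * t + r ≤ n := by omega
  refine ⟨gr n t r, inferInstance, col n t r, ?_, ?_⟩
  · rw [minDegree_eq n t r (by omega) hn]
    omega
  · intro m hm
    rcases no_tiling n t r m hn hm with h | h <;> omega

/-- Q1 of the problem, as a statement about graphs of order `n` (with `4 δ + 1 - 3 n` and
`5 δ + 1 - 4 n` nonnegative in the ranges in question, and `⌈x / 2⌉ = ⌊(x + 1) / 2⌋`). -/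
def Q1At (n : ℕ) : Prop :=
  ∀ (G : SimpleGraph (Fin n)) (_ : DecidableRel G.Adj) (c : Sym2 (Fin n) → Bool),
    (15 * n ≤ 17 * G.minDegree → HasMonoTiling G c ((G.minDegree + 1) / 5)) ∧
    (6 * n ≤ 7 * G.minDegree → 17 * G.minDegree ≤ 15 * n →
      HasMonoTiling G c ((4 * G.minDegree + 1 - 3 * n) / 3)) ∧
    (4 * n ≤ 5 * G.minDegree → 7 * G.minDegree ≤ 6 * n →
      HasMonoTiling G c ((5 * G.minDegree + 1 - 4 * n) / 2))

/-- (1) Q1 is false, (C.1) at `n = 27`, `δ = 24` and (C.2) at `n = 30`, `δ = 26`.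
(2) The construction.
(3) (C.1) fails for all `n`, `δ` with `15 n / 17 ≤ δ ≤ (10 n - 37) / 11`.
(4) (C.2) fails for all `n`, `δ` with `(6 n + 19) / 7 ≤ δ ≤ 15 n / 17`. -/
theorem result :
    ((¬ ∀ n : ℕ, 25 ≤ n → Q1At n) ∧
      (∃ (G : SimpleGraph (Fin 27)) (_ : DecidableRel G.Adj) (c : Sym2 (Fin 27) → Bool),
        G.minDegree = 24 ∧ ¬ HasMonoTiling G c 5) ∧
      (∃ (G : SimpleGraph (Fin 30)) (_ : DecidableRel G.Adj) (c : Sym2 (Fin 30) → Bool),
        G.minDegree = 26 ∧ ¬ HasMonoTiling G c 5)) ∧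
    (∀ n δ : ℕ, δ < n → 2 * n ≤ 3 * δ →
      ∃ (G : SimpleGraph (Fin n)) (_ : DecidableRel G.Adj) (c : Sym2 (Fin n) → Bool),
        G.minDegree = δ ∧ ∀ m : ℕ, HasMonoTiling G c m → 4 * m + 2 * n ≤ 3 * δ + 1) ∧
    (∀ n δ : ℕ, 15 * n ≤ 17 * δ → 11 * δ + 37 ≤ 10 * n →
      ∃ (G : SimpleGraph (Fin n)) (_ : DecidableRel G.Adj) (c : Sym2 (Fin n) → Bool),
        G.minDegree = δ ∧ ¬ HasMonoTiling G c ((δ + 1) / 5)) ∧
    (∀ n δ : ℕ, 6 * n + 19 ≤ 7 * δ → 17 * δ ≤ 15 * n →
      ∃ (G : SimpleGraph (Fin n)) (_ : DecidableRel G.Adj) (c : Sym2 (Fin n) → Bool),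
        G.minDegree = δ ∧ ¬ HasMonoTiling G c ((4 * δ + 1 - 3 * n) / 3)) := by
  refine ⟨⟨?_, ?_, ?_⟩, construction, ?_, ?_⟩
  · intro h
    obtain ⟨G, dG, c, h1, h2⟩ := construction 27 24 (by norm_num) (by norm_num)
    have h3 := (h 27 (by norm_num) G dG c).1 (by rw [h1]; norm_num)
    rw [h1] at h3
    have := h2 _ h3
    omega
  · obtain ⟨G, dG, c, h1, h2⟩ := construction 27 24 (by norm_num) (by norm_num)
    refine ⟨G, dG, c, h1, fun h3 => ?_⟩
    have := h2 _ h3
    omega
  · obtain ⟨G, dG, c, h1, h2⟩ := construction 30 26 (by norm_num) (by norm_num)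
    refine ⟨G, dG, c, h1, fun h3 => ?_⟩
    have := h2 _ h3
    omega
  · intro n δ ha hb
    obtain ⟨G, dG, c, h1, h2⟩ := construction n δ (by omega) (by omega)
    refine ⟨G, dG, c, h1, fun h3 => ?_⟩
    have := h2 _ h3
    omega
  · intro n δ ha hb
    obtain ⟨G, dG, c, h1, h2⟩ := construction n δ (by omega) (by omega)
    refine ⟨G, dG, c, h1, fun h3 => ?_⟩
    have := h2 _ h3
    omega

end Pool.Agent.Results.MP_61eff6_co.PentagonCliques
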